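import Mathlib
import Pool.Agent.H515R2.KarpB

set_option autoImplicit false

namespace Pool.Agent.Results.MP_44891f_nt.FiniteNonReduced

open Matrix Polynomial

/-- A Hessenberg type `⟨a11, a21 | a12, a22, a32⟩`: integers with `a21, a32 ≥ 1` for which some
third column `(a13, a23, a33)` makes the determinant equal to one. -/
structure HessenbergType where
  a11 : ℤ
  a21 : ℤ
  a12 : ℤ
  a22 : ℤ
  a32 : ℤ
  one_le_a21 : 1 ≤ a21
  one_le_a32 : 1 ≤ a32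
  exists_column : ∃ a13 a23 a33 : ℤ,
    (!![a11, a12, a13; a21, a22, a23; 0, a32, a33] : Matrix (Fin 3) (Fin 3) ℤ).det = 1

/-- The matrix `H_Ω^v(m, n)`. -/
def HessenbergType.mat (Ω : HessenbergType) (v : Fin 3 → ℤ) (m n : ℤ) :
    Matrix (Fin 3) (Fin 3) ℤ :=
  !![Ω.a11, Ω.a12, Ω.a11 * m + Ω.a12 * n + v 0;
     Ω.a21, Ω.a22, Ω.a21 * m + Ω.a22 * n + v 1;
     0, Ω.a32, Ω.a32 * n + v 2]

/-- The set `H(Ω)` of the matrices of Hessenberg type `Ω`: all the `H_Ω^v(m, n)`, where `v` is a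
vector for which `H_Ω^v(0, 0)` has determinant one. -/
def HessenbergType.H (Ω : HessenbergType) : Set (Matrix (Fin 3) (Fin 3) ℤ) :=
  {A | ∃ v : Fin 3 → ℤ, (Ω.mat v 0 0).det = 1 ∧ ∃ m n : ℤ, A = Ω.mat v m n}

/-- NRS-matrices: integer matrices of determinant one whose characteristic polynomial is
irreducible over the rationals and has one real root and a pair of non-real complex conjugate
roots. -/
def IsNRS (A : Matrix (Fin 3) (Fin 3) ℤ) : Prop :=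
  A.det = 1 ∧ Irreducible (A.charpoly.map (Int.castRingHom ℚ)) ∧
    ∃ (r : ℝ) (z : ℂ), z.im ≠ 0 ∧
      A.charpoly.map (Int.castRingHom ℂ) = (X - C (r : ℂ)) * (X - C z) * (X - C (star z))

/-- Hessenberg-shaped matrices in `SL(3, ℤ)`: `m31 = 0` and `m21 m32 ≠ 0`. -/
def HessenbergShaped (M : Matrix (Fin 3) (Fin 3) ℤ) : Prop :=
  M.det = 1 ∧ M 2 0 = 0 ∧ M 1 0 * M 2 1 ≠ 0

/-- The Hessenberg complexity `|m21² m32|`. -/
def complexity (M : Matrix (Fin 3) (Fin 3) ℤ) : ℤ := |M 1 0 ^ 2 * M 2 1|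

/-- A Hessenberg-shaped matrix is reduced if its complexity is minimal among all Hessenberg-shaped
matrices conjugate to it by an element of `GL(3, ℤ)`. -/
def IsReduced (M : Matrix (Fin 3) (Fin 3) ℤ) : Prop :=
  HessenbergShaped M ∧ ∀ M' : Matrix (Fin 3) (Fin 3) ℤ, HessenbergShaped M' →
    (∃ U : GL (Fin 3) ℤ, M' = (U : Matrix (Fin 3) (Fin 3) ℤ) * M * ((U⁻¹ : GL (Fin 3) ℤ) :
      Matrix (Fin 3) (Fin 3) ℤ)) → complexity M ≤ complexity M'

open Pool.Agent.H515R2.Karp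

lemma F_hess {M : Matrix (Fin 3) (Fin 3) ℤ} (h : M 2 0 = 0) :
    F M ![1, 0, 0] = M 1 0 ^ 2 * M 2 1 := by
  have h0 : ∀ i, K M ![1, 0, 0] i 0 = (![1, 0, 0] : Fin 3 → ℤ) i := by
    intro i; simp [K]
  have h1 : ∀ i, K M ![1, 0, 0] i 1 = (M *ᵥ ![1, 0, 0]) i := by
    intro i; simp [K]
  have h2 : ∀ i, K M ![1, 0, 0] i 2 = (M *ᵥ (M *ᵥ ![1, 0, 0])) i := by
    intro i; simp only [K, Matrix.of_apply, Matrix.mulVec_mulVec, ← pow_two]; rfl
  rw [F, Matrix.det_fin_three]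
  simp only [h0, h1, h2]
  simp [Matrix.mulVec, dotProduct, Fin.sum_univ_three, h]
  ring

lemma F_conj {M : Matrix (Fin 3) (Fin 3) ℤ} (U : GL (Fin 3) ℤ) (x : Fin 3 → ℤ) :
    |F ((U : Matrix (Fin 3) (Fin 3) ℤ) * M * ((U⁻¹ : GL (Fin 3) ℤ) : Matrix (Fin 3) (Fin 3) ℤ)) x|
      = |F M (((U⁻¹ : GL (Fin 3) ℤ) : Matrix (Fin 3) (Fin 3) ℤ) *ᵥ x)| := by
  have hpow : ∀ j : ℕ, ((U : Matrix (Fin 3) (Fin 3) ℤ) * M *
      ((U⁻¹ : GL (Fin 3) ℤ) : Matrix (Fin 3) (Fin 3) ℤ)) ^ j =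
      (U : Matrix (Fin 3) (Fin 3) ℤ) * M ^ j *
      ((U⁻¹ : GL (Fin 3) ℤ) : Matrix (Fin 3) (Fin 3) ℤ) := by
    intro j
    exact Units.conj_pow U M j
  have hK : K ((U : Matrix (Fin 3) (Fin 3) ℤ) * M *
      ((U⁻¹ : GL (Fin 3) ℤ) : Matrix (Fin 3) (Fin 3) ℤ)) x =
      (U : Matrix (Fin 3) (Fin 3) ℤ) *
        K M (((U⁻¹ : GL (Fin 3) ℤ) : Matrix (Fin 3) (Fin 3) ℤ) *ᵥ x) := by
    ext i j
    simp only [K, Matrix.of_apply, hpow, Matrix.mul_apply, ← Matrix.mulVec_mulVec]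
    rfl
  rw [F, hK, Matrix.det_mul, abs_mul]
  have hU : |(U : Matrix (Fin 3) (Fin 3) ℤ).det| = 1 := by
    have : IsUnit (U : Matrix (Fin 3) (Fin 3) ℤ).det :=
      (Matrix.isUnit_iff_isUnit_det _).1 U.isUnit
    exact Int.isUnit_iff_abs_eq.1 this
  rw [hU, one_mul, F]

/-- the inverse matrix has the opposite cubic form -/
lemma F_inv {M N : Matrix (Fin 3) (Fin 3) ℤ} (hNM : N * M = 1) (hMN : M * N = 1)
    (hM : M.det = 1) (y : Fin 3 → ℤ) : F N y = - F M y := by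
  have hc : Commute (M ^ 2) N := by
    apply Commute.pow_left
    rw [Commute, SemiconjBy, hNM, hMN]
  have h1 : F N ((M ^ 2) *ᵥ y) = F N y := by
    rw [F_comm hc, Matrix.det_pow, hM]; ring
  have h2 : K N ((M ^ 2) *ᵥ y) = K M y * !![0, 0, 1; 0, 1, 0; 1, 0, 0] := by
    ext i j
    rw [Matrix.mul_apply, Fin.sum_univ_three]
    fin_cases j
    · simp [K]
    · have : N *ᵥ ((M ^ 2) *ᵥ y) = M *ᵥ y := by
        rw [Matrix.mulVec_mulVec, pow_two, ← mul_assoc, hNM, one_mul]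
      simpa [K] using congrFun this i
    · have : (N ^ 2) *ᵥ ((M ^ 2) *ᵥ y) = y := by
        rw [Matrix.mulVec_mulVec, pow_two, pow_two]
        have : N * N * (M * M) = 1 := by
          calc N * N * (M * M) = N * (N * M) * M := by noncomm_ring
            _ = 1 := by rw [hNM, mul_one, hNM]
        rw [this, Matrix.one_mulVec]
      simpa [K] using congrFun this i
  rw [← h1, F, h2, Matrix.det_mul]
  have : (!![0, 0, 1; 0, 1, 0; 1, 0, 0] : Matrix (Fin 3) (Fin 3) ℤ).det = -1 := by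
    rw [Matrix.det_fin_three]; simp
  rw [this, F]; ring

/-- data extracted from the NRS property -/
lemma nrs_data {A : Matrix (Fin 3) (Fin 3) ℤ} (h : IsNRS A) : ∃ r p q : ℝ, 0 < r ∧ 0 < q ∧
    r * q = 1 ∧ (A.trace : ℝ) = r + p ∧ (sec A : ℝ) = q + r * p ∧ 0 < q - p ^ 2 / 4 := by
  obtain ⟨hdet, _, r, z, hz, hpoly⟩ := h
  rw [charpoly3, hdet] at hpoly
  have e0 := congrArg (eval (0 : ℂ)) hpoly
  have e1 := congrArg (eval (1 : ℂ)) hpoly
  have e2 := congrArg (eval (-1 : ℂ)) hpoly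
  simp at e0 e1 e2
  have c1 : z * (starRingEnd ℂ) z = ((Complex.normSq z : ℝ) : ℂ) := Complex.mul_conj z
  have c2 : z + (starRingEnd ℂ) z = ((2 * z.re : ℝ) : ℂ) := Complex.add_conj z
  have f0 : (r : ℂ) * (Complex.normSq z : ℝ) = 1 := by
    rw [← c1]; linear_combination (-1) * e0
  have f0' : r * Complex.normSq z = 1 := by exact_mod_cast f0
  have f1 : ((A.trace : ℤ) : ℂ) = (r : ℂ) + ((2 * z.re : ℝ) : ℂ) := by
    rw [← c2]
    linear_combination (-(1 / 2 : ℂ)) * e1 - (1 / 2 : ℂ) * e2 - e0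
  have f2 : ((sec A : ℤ) : ℂ) = ((Complex.normSq z : ℝ) : ℂ) + (r : ℂ) * ((2 * z.re : ℝ) : ℂ) := by
    rw [← c2, ← c1]
    linear_combination ((1 / 2 : ℂ)) * e1 - (1 / 2 : ℂ) * e2
  have hq : 0 < Complex.normSq z := by
    rw [Complex.normSq_pos]
    rintro rfl
    simp at hz
  have hr : 0 < r := by
    by_contra hcon
    push Not at hcon
    nlinarith
  refine ⟨r, 2 * z.re, Complex.normSq z, hr, hq, f0', by exact_mod_cast f1, by exact_mod_cast f2, ?_⟩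
  rw [Complex.normSq_apply]
  have : 0 < z.im * z.im := by
    rcases lt_or_gt_of_ne hz with h1 | h1
    · exact mul_pos_of_neg_of_neg h1 h1
    · exact mul_pos h1 h1
  nlinarith

/-- trace and second coefficient are bounded for the non-reduced NRS-matrices of type `Ω` -/
lemma bounded {A : Matrix (Fin 3) (Fin 3) ℤ} (hA : IsNRS A) {D : ℤ} (hD : F A ![1, 0, 0] = D)
    (hD0 : D ≠ 0) {x : Fin 3 → ℤ} (hx0 : F A x ≠ 0) (hx : |F A x| < |D|) {G : ℝ}
    (hG : G = (256 * ((|D| : ℤ) : ℝ) ^ 6) ^ 2 + 100) :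
    |(A.trace : ℝ)| ≤ 2 * G ^ 2 ∧ |(sec A : ℝ)| ≤ 2 * G ^ 2 := by
  obtain ⟨r, p, q, hr, hq, hrq, hS, hT, hE⟩ := nrs_data hA
  have hdet := hA.1
  have hCH := cayley A hdet
  have he : F A ![1, 0, 0] ≠ 0 := by rw [hD]; exact hD0
  have hx' : |F A x| < |F A ![1, 0, 0]| := by rw [hD]; exact hx
  have b1 := bound hdet hCH hrq hS hT hE he hx0 hx'
  rw [hD, ← hG] at b1
  -- the inverse matrix
  obtain ⟨N, hN⟩ : ∃ N, N = A.adjugate := ⟨_, rfl⟩
  have hNA : N * A = 1 := by rw [hN, Matrix.adjugate_mul, hdet, one_smul]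
  have hAN : A * N = 1 := by rw [hN, Matrix.mul_adjugate, hdet, one_smul]
  have hNdet : N.det = 1 := by
    have := congrArg Matrix.det hNA
    rw [Matrix.det_mul, hdet, mul_one, Matrix.det_one] at this
    exact this
  have hNCH : N ^ 3 = (sec A) • N ^ 2 - A.trace • N + 1 := by
    have e1 : N ^ 3 * A ^ 3 = 1 := by
      have : N ^ 3 * A ^ 3 = N * (N * (N * A) * A) * A := by noncomm_ring
      rw [this, hNA, mul_one, hNA, mul_one, hNA]
    have e2 : N ^ 3 * A ^ 2 = N := by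
      have : N ^ 3 * A ^ 2 = N * (N * (N * A) * A) := by noncomm_ring
      rw [this, hNA, mul_one, hNA, mul_one]
    have e3 : N ^ 3 * A = N ^ 2 := by
      have : N ^ 3 * A = N * N * (N * A) := by noncomm_ring
      rw [this, hNA, mul_one, pow_two]
    have e4 : (1 : Matrix (Fin 3) (Fin 3) ℤ) = A.trace • N - sec A • N ^ 2 + N ^ 3 := by
      calc (1 : Matrix (Fin 3) (Fin 3) ℤ) = N ^ 3 * A ^ 3 := e1.symm
        _ = N ^ 3 * (A.trace • A ^ 2 - sec A • A + 1) := by rw [hCH]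
        _ = _ := by
          rw [mul_add, mul_sub, mul_smul_comm, mul_smul_comm, e2, e3, mul_one]
    rw [e4]; abel
  have hFN : ∀ y, F N y = - F A y := F_inv hNA hAN hdet
  have b2 := bound (N := N) hNdet hNCH (θ := q) (p := r * p) (q := r) (by rw [mul_comm]; exact hrq)
    hT (by
      have : q * (r * p) = (r * q) * p := by ring
      rw [this, hrq, hS]; ring)
    (by
      have : r - (r * p) ^ 2 / 4 = r ^ 2 * (q - p ^ 2 / 4) := by
        have : r ^ 2 * (q - p ^ 2 / 4) = r * (r * q) - (r * p) ^ 2 / 4 := by ring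
        rw [this, hrq]; ring
      rw [this]; positivity)
    (by rw [hFN]; exact neg_ne_zero.2 he) (x := x)
    (by rw [hFN]; exact neg_ne_zero.2 hx0)
    (by rw [hFN, hFN, abs_neg, abs_neg]; exact hx')
  rw [hFN, abs_neg, hD, ← hG] at b2
  have hG1 : 100 ≤ G := by rw [hG]; nlinarith [sq_nonneg (256 * ((|D| : ℤ) : ℝ) ^ 6)]
  have hp : |p| ≤ q + 1 := by
    apply abs_le_of_sq_le_sq _ (by linarith)
    nlinarith [sq_nonneg (q - 1)]
  constructor
  · rw [hS]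
    calc |r + p| ≤ |r| + |p| := abs_add_le r p
      _ ≤ G + (G + 1) := by rw [abs_of_pos hr]; linarith
      _ ≤ 2 * G ^ 2 := by nlinarith
  · rw [hT]
    calc |q + r * p| ≤ |q| + |r * p| := abs_add_le _ _
      _ = q + r * |p| := by rw [abs_of_pos hq, abs_mul, abs_of_pos hr]
      _ ≤ G + G * (G + 1) := by
          have : r * |p| ≤ G * (G + 1) := mul_le_mul b2.le (by linarith) (abs_nonneg _) (by linarith)
          linarith
      _ ≤ 2 * G ^ 2 := by nlinarith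

lemma shape {Ω : HessenbergType} {A : Matrix (Fin 3) (Fin 3) ℤ} (hA : A ∈ Ω.H) :
    A 0 0 = Ω.a11 ∧ A 1 0 = Ω.a21 ∧ A 2 0 = 0 ∧ A 0 1 = Ω.a12 ∧ A 1 1 = Ω.a22 ∧ A 2 1 = Ω.a32 := by
  obtain ⟨v, _, m, n, rfl⟩ := hA
  simp [HessenbergType.mat]

/-- sanity check: the set `H(Ω)` does not depend on the choice of the admissible vector `v` -/
lemma H_eq (Ω : HessenbergType) (v : Fin 3 → ℤ) (hv : (Ω.mat v 0 0).det = 1) :
    Ω.H = {A | ∃ m n : ℤ, A = Ω.mat v m n} := by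
  ext A
  constructor
  · rintro ⟨w, hw, m, n, rfl⟩
    rw [HessenbergType.mat, Matrix.det_fin_three] at hv hw
    simp at hv hw
    have hd : Ω.a11 * (Ω.a22 * (w 2 - v 2) - (w 1 - v 1) * Ω.a32) - Ω.a12 * Ω.a21 * (w 2 - v 2) +
        (w 0 - v 0) * Ω.a21 * Ω.a32 = 0 := by linarith
    refine ⟨m + ((w 0 - v 0) * (Ω.a22 * v 2 - v 1 * Ω.a32) - Ω.a12 * ((w 1 - v 1) * v 2 -
      v 1 * (w 2 - v 2)) + v 0 * ((w 1 - v 1) * Ω.a32 - Ω.a22 * (w 2 - v 2))),
      n + (Ω.a11 * ((w 1 - v 1) * v 2 - v 1 * (w 2 - v 2)) - (w 0 - v 0) * Ω.a21 * v 2 +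
        v 0 * Ω.a21 * (w 2 - v 2)), ?_⟩
    rw [HessenbergType.mat, HessenbergType.mat]
    ext i j
    fin_cases i <;> fin_cases j <;> simp
    · linear_combination (-(w 0 - v 0)) * hv + v 0 * hd
    · linear_combination (-(w 1 - v 1)) * hv + v 1 * hd
    · linear_combination (-(w 2 - v 2)) * hv + v 2 * hd
  · rintro ⟨m, n, rfl⟩
    exact ⟨v, hv, m, n, rfl⟩

/-- **Main result**: for every Hessenberg type `Ω`, only finitely many NRS-matrices of type `Ω`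
are not reduced. -/
theorem result (Ω : HessenbergType) :
    {A : Matrix (Fin 3) (Fin 3) ℤ | A ∈ Ω.H ∧ IsNRS A ∧ ¬ IsReduced A}.Finite := by
  obtain ⟨D, hD⟩ : ∃ D : ℤ, D = Ω.a21 ^ 2 * Ω.a32 := ⟨_, rfl⟩
  have h21 := Ω.one_le_a21
  have h32 := Ω.one_le_a32
  have hD0 : D ≠ 0 := by
    rw [hD]
    exact mul_ne_zero (pow_ne_zero 2 (by omega)) (by omega)
  obtain ⟨G, hG⟩ : ∃ G : ℝ, G = (256 * ((|D| : ℤ) : ℝ) ^ 6) ^ 2 + 100 := ⟨_, rfl⟩
  obtain ⟨k, hk⟩ := exists_int_gt (2 * G ^ 2)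
  apply Set.Finite.of_finite_image (f := fun A : Matrix (Fin 3) (Fin 3) ℤ => (A.trace, sec A))
  · apply Set.Finite.subset ((Set.finite_Icc (-k) k).prod (Set.finite_Icc (-k) k))
    rintro ⟨S, T⟩ ⟨A, ⟨hAH, hNRS, hred⟩, hST⟩
    simp only [Prod.mk.injEq] at hST
    obtain ⟨hS, hT⟩ := hST
    obtain ⟨s1, s2, s3, s4, s5, s6⟩ := shape hAH
    have hshaped : HessenbergShaped A := by
      refine ⟨hNRS.1, s3, ?_⟩
      rw [s2, s6]
      exact mul_ne_zero (by omega) (by omega)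
    have hFA : F A ![1, 0, 0] = D := by rw [F_hess s3, s2, s6, hD]
    have hex : ∃ M' : Matrix (Fin 3) (Fin 3) ℤ, HessenbergShaped M' ∧
        (∃ U : GL (Fin 3) ℤ, M' = (U : Matrix (Fin 3) (Fin 3) ℤ) * A * ((U⁻¹ : GL (Fin 3) ℤ) :
          Matrix (Fin 3) (Fin 3) ℤ)) ∧ complexity M' < complexity A := by
      by_contra hcon
      push Not at hcon
      exact hred ⟨hshaped, fun M' h1 h2 => hcon M' h1 h2⟩
    obtain ⟨M', hM', ⟨U, hU⟩, hlt⟩ := hex
    have hFM' : F M' ![1, 0, 0] = M' 1 0 ^ 2 * M' 2 1 := F_hess hM'.2.1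
    have hFx : |F A (((U⁻¹ : GL (Fin 3) ℤ) : Matrix (Fin 3) (Fin 3) ℤ) *ᵥ ![1, 0, 0])| =
        complexity M' := by
      rw [← F_conj, ← hU, hFM', complexity]
    have hM'0 : complexity M' ≠ 0 := by
      rw [complexity]
      have h1 := hM'.2.2
      rw [abs_ne_zero]
      exact mul_ne_zero (pow_ne_zero 2 (left_ne_zero_of_mul h1)) (right_ne_zero_of_mul h1)
    have hx0 : F A (((U⁻¹ : GL (Fin 3) ℤ) : Matrix (Fin 3) (Fin 3) ℤ) *ᵥ ![1, 0, 0]) ≠ 0 := by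
      intro h0
      rw [h0, abs_zero] at hFx
      exact hM'0 hFx.symm
    have hx : |F A (((U⁻¹ : GL (Fin 3) ℤ) : Matrix (Fin 3) (Fin 3) ℤ) *ᵥ ![1, 0, 0])| < |D| := by
      rw [hFx, ← hFA, F_hess s3]
      exact hlt
    obtain ⟨b1, b2⟩ := bounded hNRS hFA hD0 hx0 hx hG
    rw [hS] at b1
    rw [hT] at b2
    obtain ⟨b3, b4⟩ := abs_le.1 b1
    obtain ⟨b5, b6⟩ := abs_le.1 b2
    refine ⟨⟨?_, ?_⟩, ⟨?_, ?_⟩⟩
    · have : ((-k : ℤ) : ℝ) ≤ (S : ℝ) := by push_cast; linarith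
      exact_mod_cast this
    · have : (S : ℝ) ≤ (k : ℝ) := by linarith
      exact_mod_cast this
    · have : ((-k : ℤ) : ℝ) ≤ (T : ℝ) := by push_cast; linarith
      exact_mod_cast this
    · have : (T : ℝ) ≤ (k : ℝ) := by linarith
      exact_mod_cast this
  · rintro A ⟨hA, hA2, _⟩ B ⟨hB, hB2, _⟩ hAB
    simp only [Prod.mk.injEq] at hAB
    obtain ⟨hS, hT⟩ := hAB
    obtain ⟨s1, s2, s3, s4, s5, s6⟩ := shape hA
    obtain ⟨t1, t2, t3, t4, t5, t6⟩ := shape hB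
    have hdA := hA2.1
    have hdB := hB2.1
    rw [Matrix.trace_fin_three, Matrix.trace_fin_three] at hS
    rw [sec, sec] at hT
    rw [Matrix.det_fin_three] at hdA hdB
    rw [s1, s5, t1, t5] at hS
    have c2 : A 2 2 = B 2 2 := by linarith
    rw [s1, s2, s3, s4, s5, s6, t1, t2, t3, t4, t5, t6, c2] at hT
    have c1 : A 1 2 = B 1 2 := by
      have : A 1 2 * Ω.a32 = B 1 2 * Ω.a32 := by linarith
      exact mul_right_cancel₀ (by omega) this
    rw [s1, s2, s3, s4, s5, s6, c2, c1] at hdA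
    rw [t1, t2, t3, t4, t5, t6] at hdB
    have c0 : A 0 2 = B 0 2 := by
      have : A 0 2 * (Ω.a21 * Ω.a32) = B 0 2 * (Ω.a21 * Ω.a32) := by linarith
      exact mul_right_cancel₀ (mul_ne_zero (by omega) (by omega)) this
    ext i j
    fin_cases i <;> fin_cases j <;> simp [*]

end Pool.Agent.Results.MP_44891f_nt.FiniteNonReduced
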